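import Pool.Graph.R_seed8.Results.MP_3489e4_al.WeakGeoNotShortLex

/-!
# Direct products of weakly geodesically automatic groups, and ShortLex

Helper file for `MP_3489e4_al`.
-/

namespace Pool.Agent.KS6_82.ProdSL

open Pool.Agent.Results.MP_3489e4_al.WeakGeoNotShortLex

/-! ### Regular languages -/

theorem regular_map {α β : Type} (i : α → β) (hi : Function.Injective i) (L : Language α)
    (hL : L.IsRegular) : Language.IsRegular ({w | ∃ u ∈ L, w = u.map i} : Language β) := by
  classical
  apply Language.IsRegular.of_finite_range_leftQuotient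
  have hfin := hL.finite_range_leftQuotient
  let F : Language α → Language β := fun Q => {w | ∃ u ∈ Q, w = u.map i}
  apply Set.Finite.subset ((hfin.image F).insert 0)
  rintro _ ⟨s, rfl⟩
  by_cases hs : ∃ s' : List α, s = s'.map i
  · right
    obtain ⟨s', rfl⟩ := hs
    refine ⟨L.leftQuotient s', ⟨s', rfl⟩, ?_⟩
    ext w
    constructor
    · rintro ⟨u, hu, rfl⟩
      exact ⟨s' ++ u, hu, by simp⟩
    · rintro ⟨u, hu, h⟩
      obtain ⟨u1, u2, rfl, h1, h2⟩ := List.append_eq_map_iff.1 h
      have h3 : u1 = s' := List.map_injective_iff.2 hi h1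
      subst h3
      exact ⟨u2, hu, h2.symm⟩
  · left
    ext w
    constructor
    · rintro ⟨u, hu, h⟩
      obtain ⟨u1, u2, -, h1, h2⟩ := List.append_eq_map_iff.1 h
      exact absurd ⟨u1, h1.symm⟩ hs
    · intro h; exact absurd h (Language.notMem_zero w)

theorem regular_append {β : Type} (L M : Language β) (hL : L.IsRegular) (hM : M.IsRegular) :
    Language.IsRegular ({w | ∃ u ∈ L, ∃ v ∈ M, w = u ++ v} : Language β) := by
  classical
  apply Language.IsRegular.of_finite_range_leftQuotient
  have hfin := hL.finite_range_leftQuotient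
  have hfin' := hM.finite_range_leftQuotient
  let F : Language β × Set (Language β) → Language β := fun Q =>
    {w | (∃ u ∈ Q.1, ∃ v ∈ M, w = u ++ v) ∨ ∃ R ∈ Q.2, w ∈ R}
  apply Set.Finite.subset ((hfin.prod hfin'.finite_subsets).image F)
  rintro _ ⟨s, rfl⟩
  refine ⟨(L.leftQuotient s, {R | ∃ s1 s2, s1 ++ s2 = s ∧ s1 ∈ L ∧ R = M.leftQuotient s2}),
    ⟨⟨s, rfl⟩, ?_⟩, ?_⟩
  · rintro R ⟨s1, s2, -, -, rfl⟩
    exact ⟨s2, rfl⟩
  · ext w
    constructor
    · rintro (⟨u, hu, v, hv, rfl⟩ | ⟨R, ⟨s1, s2, rfl, h1, rfl⟩, h2⟩)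
      · exact ⟨s ++ u, hu, v, hv, by simp⟩
      · exact ⟨s1, h1, s2 ++ w, h2, by simp⟩
    · rintro ⟨u, hu, v, hv, h⟩
      rcases List.append_eq_append_iff.1 h with ⟨a, h1, h2⟩ | ⟨a, h1, h2⟩
      · left
        refine ⟨a, ?_, v, hv, h2⟩
        show s ++ a ∈ L
        rw [← h1]; exact hu
      · right
        refine ⟨M.leftQuotient a, ⟨u, a, h1.symm, hu, rfl⟩, ?_⟩
        show a ++ w ∈ M
        rw [← h2]; exact hv

theorem regular_comap {α β : Type} (i : α → β) (L : Language β) (hL : L.IsRegular) :
    Language.IsRegular ({w | w.map i ∈ L} : Language α) := by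
  obtain ⟨σ, hσ, M, rfl⟩ := hL
  refine ⟨σ, hσ, M.comap i, ?_⟩
  rw [DFA.accepts_comap]
  rfl

/-! ### Fellow travelling -/

theorem ft_of_regular {G : Type} [Group G] {α : Type} (f : α → G) (L : Language α) (x : G)
    (h : (pairLang f L x).IsRegular) :
    ∃ D : Set G, D.Finite ∧ ∀ u ∈ L, ∀ v ∈ L, ev f u * x = ev f v →
      ∀ t : ℕ, (ev f (u.take t))⁻¹ * ev f (v.take t) ∈ D := by
  classical
  have hfin := h.finite_range_leftQuotient
  let rp : Language (Option α × Option α) → List (Option α × Option α) :=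
    fun Q => if hQ : ∃ r, r ∈ Q then hQ.choose else []
  refine ⟨(fun Q => ev f ((rp Q).filterMap Prod.fst) * x *
    (ev f ((rp Q).filterMap Prod.snd))⁻¹) '' (Set.range (pairLang f L x).leftQuotient),
    hfin.image _, ?_⟩
  intro u hu v hv huv t
  have hQ : ∃ r, r ∈ (pairLang f L x).leftQuotient (pad (u.take t) (v.take t)) := by
    refine ⟨pad (u.drop t) (v.drop t), ?_⟩
    show pad (u.take t) (v.take t) ++ pad (u.drop t) (v.drop t) ∈ pairLang f L x
    rw [← pad_take, ← pad_drop, List.take_append_drop]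
    exact ⟨u, hu, v, hv, huv, rfl⟩
  refine ⟨_, ⟨pad (u.take t) (v.take t), rfl⟩, ?_⟩
  have hr : rp ((pairLang f L x).leftQuotient (pad (u.take t) (v.take t))) ∈
      (pairLang f L x).leftQuotient (pad (u.take t) (v.take t)) := by
    simp only [rp, dif_pos hQ]; exact hQ.choose_spec
  obtain ⟨u', hu', v', hv', huv', hp⟩ := hr
  have h1 := congrArg (List.filterMap Prod.fst) hp
  have h2 := congrArg (List.filterMap Prod.snd) hp
  rw [List.filterMap_append, pad_fst, pad_fst] at h1
  rw [List.filterMap_append, pad_snd, pad_snd] at h2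
  rw [← h1, ← h2, ev_append, ev_append] at huv'
  show ev f _ * x * (ev f _)⁻¹ = _
  rw [mul_inv_eq_iff_eq_mul, mul_assoc, eq_inv_mul_iff_mul_eq, ← mul_assoc]
  exact huv'

/-! ### The generating set of a product -/

variable {G H : Type} [Group G] [Group H]

open Classical in
/-- The generating set `{(a, 1) | a ∈ A} ∪ {(1, b) | b ∈ B}` of `G × H`. -/
noncomputable def prodGen (A : Finset G) (B : Finset H) : Finset (G × H) :=
  A.image (fun a => (a, 1)) ∪ B.image (fun b => (1, b))

theorem mem_prodGen {A : Finset G} {B : Finset H} {c : G × H} :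
    c ∈ prodGen A B ↔ (∃ a ∈ A, (a, 1) = c) ∨ ∃ b ∈ B, (1, b) = c := by
  classical
  simp only [prodGen, Finset.mem_union, Finset.mem_image]

variable {A : Finset G} {B : Finset H}

/-- the inclusion of the letters of `A` -/
def li (B : Finset H) (a : A) : prodGen A B := ⟨((a : G), 1), mem_prodGen.2 (Or.inl ⟨a, a.2, rfl⟩)⟩
/-- the inclusion of the letters of `B` -/
def lj (A : Finset G) (b : B) : prodGen A B := ⟨(1, (b : H)), mem_prodGen.2 (Or.inr ⟨b, b.2, rfl⟩)⟩

theorem li_inj : Function.Injective (li B : A → prodGen A B) := by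
  intro a a' h
  have := congrArg (fun c : prodGen A B => (c : G × H).1) h
  exact Subtype.ext this

theorem lj_inj : Function.Injective (lj A : B → prodGen A B) := by
  intro a a' h
  have := congrArg (fun c : prodGen A B => (c : G × H).2) h
  exact Subtype.ext this

theorem ev_li (w : List A) :
    ev (fun c : prodGen A B => (c : G × H)) (w.map (li B)) = (ev (fun a : A => (a : G)) w, 1) := by
  induction w with
  | nil => rfl
  | cons a w ih => rw [List.map_cons, ev_cons, ih, ev_cons]; simp [li]

theorem ev_lj (w : List B) :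
    ev (fun c : prodGen A B => (c : G × H)) (w.map (lj A)) = (1, ev (fun a : B => (a : H)) w) := by
  induction w with
  | nil => rfl
  | cons a w ih => rw [List.map_cons, ev_cons, ih, ev_cons]; simp [lj]

/-- Splitting a word over the product generators into its two components. -/
theorem split_word (w : List (prodGen A B)) :
    ∃ (u : List A) (v : List B), u.length + v.length = w.length ∧
      ev (fun c : prodGen A B => (c : G × H)) w =
        (ev (fun a : A => (a : G)) u, ev (fun b : B => (b : H)) v) ∧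
      (v = [] → w = u.map (li B)) := by
  induction w with
  | nil => exact ⟨[], [], rfl, rfl, fun _ => rfl⟩
  | cons c w ih =>
    obtain ⟨u, v, h1, h2, h3⟩ := ih
    rcases mem_prodGen.1 c.2 with ⟨a, ha, hc⟩ | ⟨b, hb, hc⟩
    · refine ⟨⟨a, ha⟩ :: u, v, by simp only [List.length_cons]; omega, ?_, ?_⟩
      · rw [ev_cons, h2, ev_cons, ← hc]; simp
      · intro hv
        rw [List.map_cons, h3 hv]
        congr 1
        exact Subtype.ext hc.symm
    · refine ⟨u, ⟨b, hb⟩ :: v, by simp only [List.length_cons]; omega, ?_, by simp⟩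
      rw [ev_cons, h2, ev_cons, ← hc]; simp

/-- The product language. -/
def prodLang (L : Language A) (M : Language B) : Language (prodGen A B) :=
  {w | ∃ u ∈ ({w | ∃ u ∈ L, w = u.map (li B)} : Language (prodGen A B)),
    ∃ v ∈ ({w | ∃ u ∈ M, w = u.map (lj A)} : Language (prodGen A B)), w = u ++ v}

theorem prodLang_regular (L : Language A) (M : Language B) (hL : L.IsRegular) (hM : M.IsRegular) :
    (prodLang L M).IsRegular :=
  regular_append _ _ (regular_map _ li_inj _ hL) (regular_map _ lj_inj _ hM)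

theorem wordVal_append (u v : List A) : wordVal (u ++ v) = wordVal u * wordVal v := by
  simp [wordVal]

theorem take_succ_ev {α : Type} (f : α → G) (w : List α) (n : ℕ) :
    (ev f (w.take n))⁻¹ * ev f (w.take (n + 1)) ∈ insert 1 (Set.range f) := by
  rcases lt_or_ge n w.length with h | h
  · right
    refine ⟨w[n], ?_⟩
    rw [List.take_succ_eq_append_getElem h, ev_append]
    simp
  · left
    rw [List.take_of_length_le h, List.take_of_length_le (by omega)]
    simp

/-- fellow travelling of words of a product language, first form -/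
theorem ft_shift {α : Type} (f : α → G) (u v : List α) (D : Set G)
    (hD : ∀ t : ℕ, (ev f (u.take t))⁻¹ * ev f (v.take t) ∈ D) (a b : ℕ) (hab : a ≤ b + 1)
    (hba : b ≤ a + 1) :
    (ev f (u.take a))⁻¹ * ev f (v.take b) ∈
      Set.image2 (fun x y => x * y) D (insert 1 (Set.range f)) ∪
      Set.image2 (fun x y => x * y⁻¹) D (insert 1 (Set.range f)) := by
  have h : b = a ∨ b = a + 1 ∨ a = b + 1 := by omega
  rcases h with rfl | rfl | rfl
  · left
    exact ⟨_, hD b, 1, Or.inl rfl, by simp⟩
  · left
    exact ⟨_, hD a, _, take_succ_ev f v a, by simp [mul_assoc]⟩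
  · right
    refine ⟨_, hD (b + 1), _, take_succ_ev f v b, ?_⟩
    simp [mul_assoc]

theorem ev_take_prod (u : List A) (v : List B) (t : ℕ) :
    ev (fun c : prodGen A B => (c : G × H)) ((u.map (li B) ++ v.map (lj A)).take t) =
      (ev (fun a : A => (a : G)) (u.take t), ev (fun b : B => (b : H)) (v.take (t - u.length))) := by
  rw [List.take_append, ev_append, ← List.map_take, ← List.map_take, ev_li, ev_lj]
  simp

/-- lengths of geodesics of neighbouring elements -/
theorem len_le {u v : List A} (hv : IsGeodesic v) {x : G} (hx : x = 1 ∨ x ∈ A)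
    (h : wordVal u * x = wordVal v) : v.length ≤ u.length + 1 := by
  rcases hx with rfl | hx
  · have := hv u (by rw [← h, mul_one])
    omega
  · have := hv (u ++ [⟨x, hx⟩]) (by rw [← h, wordVal_append]; simp [wordVal])
    simpa using this

theorem len_le' (hA : ∀ a ∈ A, a⁻¹ ∈ A) {u v : List A} (hu : IsGeodesic u) {x : G}
    (hx : x = 1 ∨ x ∈ A) (h : wordVal u * x = wordVal v) : u.length ≤ v.length + 1 := by
  refine len_le hu (x := x⁻¹) ?_ ?_
  · rcases hx with rfl | hx
    · left; simp
    · right; exact hA _ hx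
  · rw [← h]; simp

/-- the fellow traveller property of the product language -/
theorem ft_prod (hA : ∀ a ∈ A, a⁻¹ ∈ A) {L : Language A} {M : Language B}
    (hL : IsAutomaticStructure A L) (hM : IsAutomaticStructure B M) (hLg : ∀ w ∈ L, IsGeodesic w)
    (x : G) (y : H) (hx : x = 1 ∨ x ∈ A) (hy : y = 1 ∨ y ∈ B) :
    ∃ D : Set (G × H), D.Finite ∧ ∀ u ∈ prodLang L M, ∀ v ∈ prodLang L M,
      ev (fun c : prodGen A B => (c : G × H)) u * (x, y) =
        ev (fun c : prodGen A B => (c : G × H)) v →
      ∀ t : ℕ, (ev (fun c : prodGen A B => (c : G × H)) (u.take t))⁻¹ *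
        ev (fun c : prodGen A B => (c : G × H)) (v.take t) ∈ D := by
  have h1 := hL.2.2 x hx
  have h2 := hM.2.2 y hy
  simp only [padPair_eq] at h1 h2
  obtain ⟨D1, hD1, h1⟩ := ft_of_regular (fun a : A => (a : G)) L x h1
  obtain ⟨D2, hD2, h2⟩ := ft_of_regular (fun a : B => (a : H)) M y h2
  have hf : (insert (1 : H) (Set.range (fun a : B => (a : H)))).Finite :=
    (Set.finite_range _).insert 1
  refine ⟨D1 ×ˢ (Set.image2 (fun x y => x * y) D2 (insert 1 (Set.range (fun a : B => (a : H)))) ∪
      Set.image2 (fun x y => x * y⁻¹) D2 (insert 1 (Set.range (fun a : B => (a : H))))),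
    hD1.prod ((hD2.image2 _ hf).union (hD2.image2 _ hf)), ?_⟩
  rintro _ ⟨_, ⟨u1, hu1, rfl⟩, _, ⟨u2, hu2, rfl⟩, rfl⟩ _ ⟨_, ⟨v1, hv1, rfl⟩, _, ⟨v2, hv2, rfl⟩, rfl⟩ h t
  rw [ev_append, ev_append, ev_li, ev_lj, ev_li, ev_lj] at h
  simp only [Prod.mk_mul_mk, mul_one, one_mul, Prod.mk.injEq] at h
  rw [ev_take_prod, ev_take_prod]
  simp only [Prod.inv_mk, Prod.mk_mul_mk, Set.mem_prod]
  have l1 : v1.length ≤ u1.length + 1 := len_le (hLg _ hv1) hx h.1
  have l2 : u1.length ≤ v1.length + 1 := len_le' hA (hLg _ hu1) hx h.1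
  exact ⟨h1 _ hu1 _ hv1 h.1 t, ft_shift _ _ _ _ (h2 _ hu2 _ hv2 h.2) _ _ (by omega) (by omega)⟩

/-- **Products of weakly geodesically automatic groups are weakly geodesically automatic.** -/
theorem wga_prod (hA : ∀ a ∈ A, a⁻¹ ∈ A)
    (h1 : WeaklyGeodesicallyAutomatic A) (h2 : WeaklyGeodesicallyAutomatic B) :
    WeaklyGeodesicallyAutomatic (prodGen A B) := by
  obtain ⟨L, hL, hLg⟩ := h1
  obtain ⟨M, hM, hMg⟩ := h2
  have hreg := prodLang_regular L M hL.1 hM.1
  refine ⟨prodLang L M, ⟨hreg, ?_, ?_⟩, ?_⟩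
  · rintro ⟨g, h⟩
    obtain ⟨u, hu, hg⟩ := hL.2.1 g
    obtain ⟨v, hv, hh⟩ := hM.2.1 h
    refine ⟨_, ⟨_, ⟨u, hu, rfl⟩, _, ⟨v, hv, rfl⟩, rfl⟩, ?_⟩
    rw [wordVal_eq_ev, ev_append, ev_li, ev_lj]
    rw [wordVal_eq_ev] at hg hh
    rw [hg, hh]; simp
  · rintro ⟨x, y⟩ hxy
    simp only [padPair_eq]
    have hx : x = 1 ∨ x ∈ A := by
      rcases hxy with h | h
      · left; exact congrArg Prod.fst h
      · rcases mem_prodGen.1 h with ⟨a, ha, h⟩ | ⟨b, hb, h⟩
        · right; rw [← show a = x from congrArg Prod.fst h]; exact ha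
        · left; exact (congrArg Prod.fst h).symm
    have hy : y = 1 ∨ y ∈ B := by
      rcases hxy with h | h
      · left; exact congrArg Prod.snd h
      · rcases mem_prodGen.1 h with ⟨a, ha, h⟩ | ⟨b, hb, h⟩
        · left; exact (congrArg Prod.snd h).symm
        · right; rw [← show b = y from congrArg Prod.snd h]; exact hb
    obtain ⟨D, hD, hft⟩ := ft_prod hA hL hM hLg x y hx hy
    exact pairLang_regular (fun c : prodGen A B => (c : G × H)) _ hreg D hD (x, y) hft
  · rintro _ ⟨_, ⟨u, hu, rfl⟩, _, ⟨v, hv, rfl⟩, rfl⟩ w hw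
    obtain ⟨w1, w2, h3, h4, -⟩ := split_word w
    rw [wordVal_eq_ev, wordVal_eq_ev, h4, ev_append, ev_li, ev_lj] at hw
    simp only [Prod.mk_mul_mk, mul_one, one_mul, Prod.mk.injEq] at hw
    have l1 := hLg u hu w1 hw.1
    have l2 := hMg v hv w2 hw.2
    simp only [List.length_append, List.length_map]
    omega

/-! ### ShortLex languages of products -/

theorem mem_shortLex_li (r : LinearOrder (prodGen A B)) (w : List A) :
    w.map (li B) ∈ ShortLexLanguage (prodGen A B) r ↔
      w ∈ ShortLexLanguage A (@LinearOrder.lift' _ _ r (li B) li_inj) := by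
  have key : ∀ u v : List A, List.Lex r.lt (u.map (li B)) (v.map (li B)) ↔
      List.Lex (@LinearOrder.lift' _ _ r (li B) li_inj).lt u v := by
    intro u v
    induction u generalizing v with
    | nil =>
      cases v with
      | nil => simp
      | cons b v => simp
    | cons a u ih =>
      cases v with
      | nil => simp
      | cons b v =>
        rw [List.map_cons, List.map_cons, List.cons_lex_cons_iff, List.cons_lex_cons_iff, ih,
          li_inj.eq_iff]
        rfl
  have key' : ∀ u v : List A, List.Shortlex r.lt (u.map (li B)) (v.map (li B)) ↔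
      List.Shortlex (@LinearOrder.lift' _ _ r (li B) li_inj).lt u v := by
    intro u v
    rw [List.shortlex_def, List.shortlex_def, key, List.length_map, List.length_map]
  constructor
  · intro h v hv hne
    rw [← key']
    apply h
    · rw [wordVal_eq_ev, wordVal_eq_ev, ev_li, ev_li]
      rw [wordVal_eq_ev, wordVal_eq_ev] at hv
      rw [hv]
    · intro h'; exact hne (List.map_injective_iff.2 li_inj h')
  · intro h v hv hne
    obtain ⟨v1, v2, h3, h4, h5⟩ := split_word v
    rw [wordVal_eq_ev, wordVal_eq_ev, h4, ev_li] at hv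
    have hv1 := congrArg Prod.fst hv
    simp only at hv1
    have hlen : w.length ≤ v1.length := by
      rcases eq_or_ne v1 w with rfl | hne'
      · exact le_rfl
      · have := h v1 hv1 hne'
        rw [List.shortlex_def] at this
        rcases this with h6 | h6
        · exact h6.le
        · exact h6.1.le
    rcases List.eq_nil_or_concat v2 with h6 | ⟨v2', b, h6⟩
    · have h7 := h5 h6
      rw [h7, key']
      apply h v1 hv1
      rintro rfl
      exact hne h7
    · apply List.Shortlex.of_length_lt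
      rw [List.length_map]
      have : 0 < v2.length := by rw [h6]; simp
      omega

theorem shortLex_geodesic {r : LinearOrder A} {w : List A} (hw : w ∈ ShortLexLanguage A r) :
    IsGeodesic w := by
  intro v hv
  rcases eq_or_ne v w with rfl | hne
  · exact le_rfl
  · have := hw v hv hne
    rw [List.shortlex_def] at this
    rcases this with h6 | h6
    · exact h6.le
    · exact h6.1.le

theorem pad_map {α β : Type} (i : α → β) : ∀ u v : List α,
    pad (u.map i) (v.map i) = (pad u v).map (Prod.map (Option.map i) (Option.map i))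
  | [], [] => by simp [pad]
  | a :: u, [] => by simpa [pad] using pad_map i u []
  | [], b :: v => by simpa [pad] using pad_map i [] v
  | a :: u, b :: v => by simpa [pad] using pad_map i u v

/-- If `G × H` is ShortLex-automatic for an order on the product generators, then `G` is
ShortLex-automatic for the restricted order. -/
theorem shortLex_restrict (r : LinearOrder (prodGen A B))
    (h : IsAutomaticStructure (prodGen A B) (ShortLexLanguage (prodGen A B) r)) :
    IsAutomaticStructure A
      (ShortLexLanguage A (@LinearOrder.lift' _ _ r (li B) li_inj)) := by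
  refine ⟨?_, ?_, ?_⟩
  · have h0 := regular_comap (li B) _ h.1
    have e0 : ShortLexLanguage A (@LinearOrder.lift' _ _ r (li B) li_inj) =
        {w | w.map (li B) ∈ ShortLexLanguage (prodGen A B) r} := by
      ext w
      exact (mem_shortLex_li r w).symm
    rw [e0]
    exact h0
  · intro g
    obtain ⟨w, hw, hwg⟩ := h.2.1 (g, 1)
    obtain ⟨w1, w2, h3, h4, h5⟩ := split_word w
    rw [wordVal_eq_ev, h4] at hwg
    have hg1 := congrArg Prod.fst hwg
    simp only at hg1
    have hlen := shortLex_geodesic hw (w1.map (li B)) (by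
      rw [wordVal_eq_ev, wordVal_eq_ev, ev_li, h4, hwg, hg1])
    rw [List.length_map] at hlen
    have h6 : w2 = [] := by
      apply List.eq_nil_of_length_eq_zero; omega
    have h7 := h5 h6
    refine ⟨w1, ?_, hg1⟩
    rw [h7] at hw
    exact (mem_shortLex_li r w1).1 hw
  · intro x hx
    have h1 := h.2.2 (x, 1) (by
      rcases hx with rfl | hx
      · left; rfl
      · right; exact mem_prodGen.2 (Or.inl ⟨x, hx, rfl⟩))
    simp only [padPair_eq] at h1 ⊢
    have h2 := regular_comap (Prod.map (Option.map (li B : A → prodGen A B)) (Option.map (li B)))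
      _ h1
    refine (congrArg Language.IsRegular ?_).mp h2
    ext p
    symm
    constructor
    · rintro ⟨u, hu, v, hv, huv, rfl⟩
      refine ⟨u.map (li B), (mem_shortLex_li r u).2 hu, v.map (li B),
        (mem_shortLex_li r v).2 hv, ?_, (pad_map _ _ _).symm⟩
      rw [wordVal_eq_ev, wordVal_eq_ev, ev_li, ev_li]
      rw [wordVal_eq_ev, wordVal_eq_ev] at huv
      rw [Prod.mk_mul_mk, huv, mul_one]
    · rintro ⟨u, hu, v, hv, huv, hp⟩
      have e1 : u = (p.filterMap Prod.fst).map (li B) := by
        rw [← pad_fst u v, ← hp, List.filterMap_map, List.map_filterMap]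
        congr 1
      have e2 : v = (p.filterMap Prod.snd).map (li B) := by
        rw [← pad_snd u v, ← hp, List.filterMap_map, List.map_filterMap]
        congr 1
      rw [e1, e2, pad_map] at hp
      have hinj : Function.Injective (Prod.map (Option.map (li B : A → prodGen A B))
          (Option.map (li B : A → prodGen A B))) :=
        (Option.map_injective li_inj).prodMap (Option.map_injective li_inj)
      have hp' := List.map_injective_iff.2 hinj hp
      rw [e1] at hu huv
      rw [e2] at hv huv
      refine ⟨_, (mem_shortLex_li r _).1 hu, _, (mem_shortLex_li r _).1 hv, ?_, hp'⟩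
      rw [wordVal_eq_ev, wordVal_eq_ev, ev_li, ev_li, Prod.mk_mul_mk] at huv
      exact congrArg Prod.fst huv

theorem prodGen_inv (hA : ∀ a ∈ A, a⁻¹ ∈ A) (hB : ∀ b ∈ B, b⁻¹ ∈ B) :
    ∀ c ∈ prodGen A B, c⁻¹ ∈ prodGen A B := by
  intro c hc
  rw [mem_prodGen] at hc ⊢
  rcases hc with ⟨a, ha, rfl⟩ | ⟨b, hb, rfl⟩
  · left; exact ⟨a⁻¹, hA a ha, by simp⟩
  · right; exact ⟨b⁻¹, hB b hb, by simp⟩

theorem closure_of_wga {A : Finset G} (h : WeaklyGeodesicallyAutomatic A) :
    Subgroup.closure (A : Set G) = ⊤ := by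
  obtain ⟨L, hL, -⟩ := h
  rw [eq_top_iff]
  intro g _
  obtain ⟨w, -, rfl⟩ := hL.2.1 g
  rw [wordVal_eq_ev]
  induction w with
  | nil => simp
  | cons c w ih =>
    rw [ev_cons]
    exact Subgroup.mul_mem _ (Subgroup.subset_closure c.2) (ih trivial)

end Pool.Agent.KS6_82.ProdSL
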